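import Pool.Agent.H82.C3.Stm

set_option autoImplicit false

namespace Pool.Agent.H78.C3

open Finset Pool.Agent.H82.C3

/-- numbers of `[1,N]` in a residue class -/
lemma count_class (r : ℕ) (hr : 0 < r) (v : ℤ) (N : ℕ) (S : Finset ℤ)
    (hS : ∀ n ∈ S, 1 ≤ n ∧ n ≤ N ∧ (r : ℤ) ∣ n - v) : S.card ≤ N / r + 1 := by
  have hr' : (0 : ℤ) < r := by exact_mod_cast hr
  have h1 : S.card ≤ (Icc (0 : ℤ) ((N / r : ℕ) : ℤ)).card := by
    apply Finset.card_le_card_of_injOn (fun n => n / (r : ℤ))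
    · intro n hn
      obtain ⟨h1, h2, _⟩ := hS n hn
      simp only [Finset.coe_Icc, Set.mem_Icc]
      refine ⟨Int.ediv_nonneg (by omega) hr'.le, ?_⟩
      push_cast
      exact Int.ediv_le_ediv hr' h2
    · intro n hn n' hn' hnn
      obtain ⟨_, _, h3⟩ := hS n hn
      obtain ⟨_, _, h3'⟩ := hS n' hn'
      simp only at hnn
      have hd : (r : ℤ) ∣ n - n' := by
        have := dvd_sub h3 h3'
        have e : n - v - (n' - v) = n - n' := by ring
        rwa [e] at this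
      have hmod : n % r = n' % r := by
        exact (Int.emod_emod_of_dvd n (dvd_refl _)).symm.trans
          (by
            have := Int.emod_emod_of_dvd n (dvd_refl (r : ℤ))
            rw [this]
            exact (Int.emod_eq_emod_iff_emod_sub_eq_zero).2 (Int.emod_eq_zero_of_dvd hd))
      have e1 := Int.mul_ediv_add_emod n r
      have e2 := Int.mul_ediv_add_emod n' r
      rw [← e1, ← e2, hnn, hmod]
  refine h1.trans ?_
  rw [Int.card_Icc]
  generalize N / r = k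
  omega

/-- the number of `n ∈ [1,N]` with `q² ∣ 4m³ - n²` -/
lemma count_two (q : ℕ) (hq : q.Prime) (h2 : 2 < q) (m : ℤ) (hm : ¬ (q : ℤ) ∣ m) (N : ℕ)
    (S : Finset ℤ) (hS : ∀ n ∈ S, 1 ≤ n ∧ n ≤ N ∧ (q : ℤ) ^ 2 ∣ DD m n) :
    S.card ≤ 2 * (N / q ^ 2 + 1) := by
  classical
  have hqI : Prime (q : ℤ) := Nat.prime_iff_prime_int.mp hq
  rcases S.eq_empty_or_nonempty with rfl | ⟨n₀, hn₀⟩
  · simp
  obtain ⟨h01, h02, h03⟩ := hS n₀ hn₀
  have key : ∀ n ∈ S, ((q ^ 2 : ℕ) : ℤ) ∣ n - n₀ ∨ ((q ^ 2 : ℕ) : ℤ) ∣ n - (-n₀) := by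
    intro n hn
    obtain ⟨h1, h2', h3⟩ := hS n hn
    have hd : (q : ℤ) ^ 2 ∣ (n - n₀) * (n - (-n₀)) := by
      have := dvd_sub h03 h3
      unfold DD at this
      have e : 4 * m ^ 3 - n₀ ^ 2 - (4 * m ^ 3 - n ^ 2) = (n - n₀) * (n - (-n₀)) := by ring
      rwa [e] at this
    push_cast
    by_cases ha : (q : ℤ) ∣ n - n₀
    · left
      have hb : ¬ (q : ℤ) ∣ n - (-n₀) := by
        intro hb
        have hs := dvd_sub hb ha
        have e : n - -n₀ - (n - n₀) = 2 * n₀ := by ring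
        rw [e] at hs
        rcases hqI.dvd_or_dvd hs with h | h
        · have := Int.le_of_dvd (by norm_num) h
          omega
        · have h4 : (q : ℤ) ∣ 4 * m ^ 3 := by
            have h5 : (q : ℤ) ∣ DD m n₀ := (dvd_pow_self _ (by norm_num)).trans h03
            unfold DD at h5
            have h6 : (q : ℤ) ∣ n₀ ^ 2 := dvd_pow h (by norm_num)
            have := dvd_add h5 h6
            simpa using this
          rcases hqI.dvd_or_dvd h4 with h7 | h7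
          · have h8 : (q : ℤ) ∣ 2 ^ 2 := by norm_num; exact h7
            have := Int.le_of_dvd (by norm_num) (hqI.dvd_of_dvd_pow h8)
            omega
          · exact hm (hqI.dvd_of_dvd_pow h7)
      have hcop : IsCoprime ((q : ℤ) ^ 2) (n - (-n₀)) :=
        ((Prime.coprime_iff_not_dvd hqI).2 hb).pow_left
      exact hcop.dvd_of_dvd_mul_right hd
    · right
      have hcop : IsCoprime ((q : ℤ) ^ 2) (n - n₀) :=
        ((Prime.coprime_iff_not_dvd hqI).2 ha).pow_left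
      exact hcop.dvd_of_dvd_mul_left hd
  have hpos : 0 < q ^ 2 := pow_pos hq.pos 2
  have hA := count_class (q ^ 2) hpos n₀ N (S.filter (fun n => ((q ^ 2 : ℕ) : ℤ) ∣ n - n₀))
    (fun n hn => by
      obtain ⟨h1, h2⟩ := Finset.mem_filter.1 hn
      exact ⟨(hS n h1).1, (hS n h1).2.1, h2⟩)
  have hB := count_class (q ^ 2) hpos (-n₀) N (S.filter (fun n => ((q ^ 2 : ℕ) : ℤ) ∣ n - (-n₀)))
    (fun n hn => by
      obtain ⟨h1, h2⟩ := Finset.mem_filter.1 hn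
      exact ⟨(hS n h1).1, (hS n h1).2.1, h2⟩)
  have hU : S ⊆ S.filter (fun n => ((q ^ 2 : ℕ) : ℤ) ∣ n - n₀) ∪
      S.filter (fun n => ((q ^ 2 : ℕ) : ℤ) ∣ n - (-n₀)) := by
    intro n hn
    rcases key n hn with h | h
    · exact Finset.mem_union_left _ (Finset.mem_filter.2 ⟨hn, h⟩)
    · exact Finset.mem_union_right _ (Finset.mem_filter.2 ⟨hn, h⟩)
  have := (Finset.card_le_card hU).trans (Finset.card_union_le _ _)
  omega

theorem t_BV2 : S_BV2 := by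
  classical
  intro A
  refine ⟨2002 * (A : ℝ) ^ 2 + 2 * A + 1, by positivity, ?_⟩
  intro T hT V hV
  have hT1 : (1 : ℝ) ≤ (T : ℝ) := by exact_mod_cast hT
  have hT0 : (0 : ℝ) < (T : ℝ) := by linarith
  set M : ℕ := ⌊(T : ℝ) ^ (4 - 1 / 100 : ℝ)⌋₊ with hM
  set K : ℕ := max 1000 (T ^ 3 / 1000) with hK
  set N : ℕ := A * T ^ 6 with hN
  set L : ℕ := A * T ^ 4 with hL
  -- for each `q`, `m`
  let Q : Finset ℕ := (Ioc K M).filter Nat.Prime
  let F : ℕ → Finset (ℤ × ℤ) := fun q => V.filter (fun v => ¬ (q : ℤ) ∣ v.1 ∧ (q : ℤ) ^ 2 ∣ DD v.1 v.2)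
  have hcov : V ⊆ Q.biUnion F := by
    intro v hv
    obtain ⟨_, q, hq, h1, h2, h3, h4, h5⟩ := hV v hv
    refine Finset.mem_biUnion.2 ⟨q, ?_, Finset.mem_filter.2 ⟨hv, h4, h5⟩⟩
    refine Finset.mem_filter.2 ⟨Finset.mem_Ioc.2 ⟨?_, Nat.le_floor h3⟩, hq⟩
    rw [hK, max_lt_iff]
    refine ⟨h1, ?_⟩
    omega
  have hF : ∀ q ∈ Q, (F q).card ≤ L * (2 * (N / q ^ 2 + 1)) := by
    intro q hq
    obtain ⟨hq1, hq2⟩ := Finset.mem_filter.1 hq
    have hq3 : 2 < q := by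
      have := (Finset.mem_Ioc.1 hq1).1
      have h4 : 1000 ≤ K := le_max_left _ _
      omega
    have hmaps : ∀ v ∈ F q, v.1 ∈ Icc (1 : ℤ) (L : ℤ) := by
      intro v hv
      obtain ⟨hv1, _⟩ := Finset.mem_filter.1 hv
      obtain ⟨⟨h1, h2, _, _⟩, _⟩ := hV v hv1
      refine Finset.mem_Icc.2 ⟨h1, ?_⟩
      rw [hL]; push_cast; exact h2
    have hc := Finset.card_le_mul_card_image_of_maps_to hmaps (2 * (N / q ^ 2 + 1)) (by
      intro m hm
      have hcard : ((F q).filter (fun v => v.1 = m)).card ≤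
          (((F q).filter (fun v => v.1 = m)).image Prod.snd).card := by
        apply le_of_eq
        symm
        apply Finset.card_image_of_injOn
        intro v hv v' hv' he
        have e1 := (Finset.mem_filter.1 hv).2
        have e2 := (Finset.mem_filter.1 hv').2
        exact Prod.ext (e1.trans e2.symm) he
      refine hcard.trans ?_
      by_cases hqm : (q : ℤ) ∣ m
      · have : ((F q).filter (fun v => v.1 = m)) = ∅ := by
          apply Finset.filter_eq_empty_iff.2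
          intro v hv hvm
          obtain ⟨_, h1, _⟩ := Finset.mem_filter.1 hv
          exact h1 (hvm ▸ hqm)
        rw [this]; simp
      · apply count_two q hq2 hq3 m hqm N
        intro n hn
        obtain ⟨v, hv, rfl⟩ := Finset.mem_image.1 hn
        obtain ⟨hv1, hv2⟩ := Finset.mem_filter.1 hv
        obtain ⟨hv3, _, hv4⟩ := Finset.mem_filter.1 hv1
        obtain ⟨⟨_, _, h3, h4⟩, _⟩ := hV v hv3
        refine ⟨h3, ?_, hv2 ▸ hv4⟩
        rw [hN]; push_cast; exact h4)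
    rw [Int.card_Icc] at hc
    have e : ((L : ℤ) + 1 - 1).toNat = L := by omega
    rw [e] at hc
    linarith [hc, mul_comm L (2 * (N / q ^ 2 + 1))]
  have h1 : V.card ≤ ∑ q ∈ Q, L * (2 * (N / q ^ 2 + 1)) :=
    ((Finset.card_le_card hcov).trans Finset.card_biUnion_le).trans (Finset.sum_le_sum hF)
  have h2 : (V.card : ℝ) ≤ ∑ q ∈ Ioc K M, (2 * L * (N * ((q : ℝ) ^ 2)⁻¹ + 1) : ℝ) := by
    have h3 : (V.card : ℝ) ≤ ((∑ q ∈ Q, L * (2 * (N / q ^ 2 + 1)) : ℕ) : ℝ) := by exact_mod_cast h1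
    refine h3.trans ?_
    push_cast
    refine le_trans (Finset.sum_le_sum (g := fun q : ℕ => (2 * L * (N * ((q : ℝ) ^ 2)⁻¹ + 1) : ℝ)) ?_) ?_
    · intro q _
      have h5 : ((N / q ^ 2 : ℕ) : ℝ) ≤ (N : ℝ) / ((q ^ 2 : ℕ) : ℝ) := Nat.cast_div_le
      push_cast at h5
      have h6 : (N : ℝ) / (q : ℝ) ^ 2 = N * ((q : ℝ) ^ 2)⁻¹ := div_eq_mul_inv _ _
      rw [h6] at h5
      have hL0 : (0 : ℝ) ≤ L := Nat.cast_nonneg _
      nlinarith [mul_le_mul_of_nonneg_left h5 hL0]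
    · apply Finset.sum_le_sum_of_subset_of_nonneg (Finset.filter_subset _ _)
      intro q _ _
      positivity
  have hKpos : K ≠ 0 := by
    have : 1000 ≤ K := le_max_left _ _
    omega
  have hKbig : (T : ℝ) ^ 3 ≤ 1001 * (K : ℝ) := by
    have h4 : 1000 ≤ K := le_max_left _ _
    have h5 : T ^ 3 / 1000 ≤ K := le_max_right _ _
    have h6 : T ^ 3 ≤ 1001 * K := by omega
    exact_mod_cast h6
  rcases le_or_gt K M with hKM | hKM
  · have h3 : ∑ q ∈ Ioc K M, ((q : ℝ) ^ 2)⁻¹ ≤ (K : ℝ)⁻¹ := by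
      have := sum_Ioc_inv_sq_le_sub (α := ℝ) hKpos hKM
      have h4 : (0 : ℝ) ≤ (M : ℝ)⁻¹ := by positivity
      linarith
    have hK0 : (0 : ℝ) < K := by
      have : 0 < K := Nat.pos_of_ne_zero hKpos
      exact_mod_cast this
    have h4 : (K : ℝ)⁻¹ ≤ 1001 / (T : ℝ) ^ 3 := by
      rw [inv_eq_one_div, div_le_div_iff₀ hK0 (by positivity)]
      linarith
    have h5 : (∑ q ∈ Ioc K M, (2 * L * (N * ((q : ℝ) ^ 2)⁻¹ + 1) : ℝ)) =
        2 * L * (N * (∑ q ∈ Ioc K M, ((q : ℝ) ^ 2)⁻¹) + ((M : ℝ) - K)) := by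
      rw [← Finset.mul_sum, Finset.sum_add_distrib, ← Finset.mul_sum]
      simp [Nat.cast_sub hKM]
    rw [h5] at h2
    have hMle : (M : ℝ) ≤ (T : ℝ) ^ (4 - 1 / 100 : ℝ) := Nat.floor_le (by positivity)
    have e1 : (T : ℝ) ^ (4 - 1 / 100 : ℝ) * (T : ℝ) ^ 4 = (T : ℝ) ^ (8 - 1 / 100 : ℝ) := by
      rw [← Real.rpow_natCast, ← Real.rpow_add hT0]; norm_num
    have e2 : (T : ℝ) ^ 7 ≤ (T : ℝ) ^ (8 - 1 / 100 : ℝ) := by
      rw [← Real.rpow_natCast]
      exact Real.rpow_le_rpow_of_exponent_le hT1 (by norm_num)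
    have h6 : (∑ q ∈ Ioc K M, ((q : ℝ) ^ 2)⁻¹) ≤ 1001 / (T : ℝ) ^ 3 := h3.trans h4
    have h7 : (N : ℝ) * (∑ q ∈ Ioc K M, ((q : ℝ) ^ 2)⁻¹) ≤ 1001 * A * T ^ 3 := by
      have h8 := mul_le_mul_of_nonneg_left h6 (Nat.cast_nonneg (α := ℝ) N)
      refine h8.trans (le_of_eq ?_)
      rw [hN]; push_cast
      field_simp
    have hL' : (L : ℝ) = A * (T : ℝ) ^ 4 := by rw [hL]; push_cast; ring
    have hL0 : (0 : ℝ) ≤ 2 * (L : ℝ) := by positivity
    have h9 : (N : ℝ) * (∑ q ∈ Ioc K M, ((q : ℝ) ^ 2)⁻¹) + ((M : ℝ) - K) ≤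
        1001 * A * T ^ 3 + (T : ℝ) ^ (4 - 1 / 100 : ℝ) := by linarith
    have h10 := h2.trans (mul_le_mul_of_nonneg_left h9 hL0)
    refine h10.trans ?_
    rw [hL']
    have hA0 : (0 : ℝ) ≤ A := Nat.cast_nonneg _
    have hP0 : (0 : ℝ) ≤ (T : ℝ) ^ (8 - 1 / 100 : ℝ) := by positivity
    calc 2 * ((A : ℝ) * (T : ℝ) ^ 4) * (1001 * A * T ^ 3 + (T : ℝ) ^ (4 - 1 / 100 : ℝ))
        = 2002 * (A : ℝ) ^ 2 * (T : ℝ) ^ 7 +
          2 * A * ((T : ℝ) ^ (4 - 1 / 100 : ℝ) * (T : ℝ) ^ 4) := by ring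
      _ ≤ 2002 * (A : ℝ) ^ 2 * (T : ℝ) ^ (8 - 1 / 100 : ℝ) +
          2 * A * (T : ℝ) ^ (8 - 1 / 100 : ℝ) := by
          rw [e1]
          gcongr
      _ ≤ (2002 * (A : ℝ) ^ 2 + 2 * A + 1) * (T : ℝ) ^ (8 - 1 / 100 : ℝ) := by nlinarith
  · rw [Finset.Ioc_eq_empty (by omega)] at h2
    simp only [Finset.sum_empty] at h2
    exact h2.trans (by positivity)

end Pool.Agent.H78.C3
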